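import Mathlib
import Pool.Agent.V11321.BP.Graph

/-!
A 4-regular connected simple graph which is quasi-isometric to `ℤ²` and has no fortress, on which
the 2-neighbour contamination started from Bernoulli(`p`) almost surely does not invade when `p` is
small.

The vertices are `a₁, a₂, b₁, b₂` in each cell `c ∈ ℤ²`; the cell is the 4-cycle `a₁ b₁ a₂ b₂`, and
`aᵢ(c)` is joined to `bᵢ(c + e₁)` and `bᵢ(c + e₂)`. A bi-infinite oriented path (steps `e₁`, `e₂`) of
healthy cells is stable, and such a path exists almost surely when `p` is small (Lipschitz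
percolation argument). A finite set is never stable: look at a top cell for `c ↦ c₁ + c₂`.
-/

set_option autoImplicit false

namespace Pool.Agent.Results.MP_38c1f8_pr.OrientedCells

open Pool.Agent.V11321.BP

/-- There is an infinite connected 4-regular graph, quasi-isometric to `ℤ²` and without fortress,
for which the invasion set is a null set for `μ_p`, for all `0 < p ≤ 1/128`. -/
theorem result : ∃ (V : Type) (G : SimpleGraph V), Infinite V ∧ G.Connected ∧
    (∀ v, (G.neighborSet v).encard = 4) ∧ QuasiIsometric G Z2 ∧ (¬ ∃ S, IsFortress G S) ∧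
    ∀ p : unitInterval, 0 < (p : ℝ) → (p : ℝ) ≤ 1 / 128 → bern p (Invasion G) = 0 :=
  ⟨Vx, Gr, inferInstance, connected, regular, quasi, fun ⟨S, hS⟩ => no_fortress S hS,
    fun _ _ hp => invasion_null hp⟩

end Pool.Agent.Results.MP_38c1f8_pr.OrientedCells
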